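import Pool.Agent.V5helper88.SP.Core2
import Pool.Agent.V5helper88.SP.Base

/-!
MP_1a953e_ag: uniformization, in bounded degree, of the points of `X^ad` over arbitrary scheme
points of `X`.

Let `k` be a discretely valued field with the ring of integers `O`, the uniformizer `π` and the
residue characteristic `p`; if `k` has positive characteristic, suppose that the residue field is
finite over its `p`-th powers. Let `X` be an integral projective `k`-scheme with the projective flat
model `𝒳` over `O`. A point `x` of `X^ad` is a pair `(ζ, V)`: a scheme point `ζ` of `X`, its support,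
and a valuation ring `V`, of any rank, of the residue field `F = κ(ζ)` in which `π` is topologically
nilpotent. In all earlier results (the starting files of this problem) `ζ` was the generic point of
`X`. Here `ζ` is an arbitrary point at which `X` is regular (rig-smooth spaces are regular at all
points): so `V` is no valuation ring of the function field of `X`, the local ring of `X^ad` at `x` has
the dimension `c = dim O_{X,ζ}`, and all models of `X` have to be resolved along the closure `Z` of
`ζ`, which has codimension `c` in `X` and may be singular.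

Suppose that `Z` has dimension `r` and degree at most `δ`, that its closure in `𝒳` and an element
`h` are defined in degree `e`, where `Z` is defined by `c` equations in `X` for `h ≠ 0`, and that
`p = 0` or `p > (δ e ^ r) ^ 2 ^ r`. Then `x` is uniformizable on `𝒳`. There is no bound on the
dimension, the degree and the equations of `X`. For example, if `X = ℙ^n` and `Z` is an integral
complete intersection of degree `δ` and dimension `r` (then `h = 1`), with the closure `𝒵` in
`𝒳 = ℙ^n_O`, then all points of `X^ad` with the support `Z` are uniformizable on `𝒳` if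
`p > δ ^ 2 ^ r`.

Idea. By the theorem SeparableUniformization, applied to the closure `𝒵₁` of `ζ` in the blowing-up
`𝒳₁` of `𝒳` in `(h, π ^ N)`, there are `l = k(ϖ)` and an admissible blowing-up of `𝒵₁ ⊗ O[ϖ]` which
is semistable at `V'`. It is lifted to `𝒳₁ ⊗ O[ϖ]`. The ideal of the strict transform of `Z` at the
centre of `x'` is, up to powers of `ϖ` and up to a function `s` which is constant along `Z`, generated
by `c` elements `b i`, because `R` is regular and `R' ⊇ R` is étale. After the blowing-up of
`(s, ϖ ^ j)`, which does not change the strict transform of `Z`, and of `(ϖ ^ M, b 1, ..., b c)`, the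
regular parameters of the support and the quotients `b i / ϖ ^ M` form a regular system of parameters
of the local ring at the centre of `x'`, and `ϖ` is the product of (lifts of) the same parameters as
on the support, up to a unit which is `1` modulo these quotients.

helper88; built on the library of the starting files (in particular on helper98's
SeparableUniformization).
-/

set_option autoImplicit false

universe u

namespace Pool.Agent.Results.MP_1a953e_ag.ArbitrarySupports

open Pool.Agent.Results.MP_1a953e_ag.SeparableUniformization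
open Pool.Agent.W418.LU2 (lo)
open Pool.Agent.V5helper88.SP
open Pointwise

/-- The local ring of `Spec B` at the centre of the local ring `S ⊇ B`: the fractions of elements of
`B` whose denominators are units of `S`. -/
def centreRing {K : Type u} [Field K] (S B : Subring K) : Subring K where
  carrier := {x | ∃ a ∈ B, ∃ b ∈ B, b ≠ 0 ∧ b⁻¹ ∈ S ∧ x = a * b⁻¹}
  mul_mem' := (lo S B).mul_mem'
  one_mem' := (lo S B).one_mem'
  add_mem' := (lo S B).add_mem'
  zero_mem' := (lo S B).zero_mem'
  neg_mem' := (lo S B).neg_mem'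

/-- The projective scheme `Proj O[W]` is semistable at the centre of the local ring `S`, which lies
in the chart `w ≠ 0`. -/
def IsSemistableAt {K : Type u} [Field K] (S : Subring K) (O : Subring K) (W : Set K)
    (ϖ : K) : Prop :=
  ∃ w ∈ W, w ≠ 0 ∧ (∀ v ∈ W, v / w ∈ S) ∧ IsSemistable (centreRing S (chart O W w)) ϖ

/-- `R` is the local ring of `Spec A` at a point `ζ`, and `res : R → F` is the map to the residue
field of `ζ`. -/
def IsLocalRingAt {K F : Type u} [Field K] [Field F] (A R : Subring K) (res : R →+* F) : Prop :=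
  A ≤ R ∧ Function.Surjective res ∧ (∀ x : R, res x ≠ 0 → (x : K)⁻¹ ∈ R) ∧
    ∀ x : R, ∃ a b : R, (a : K) ∈ A ∧ (b : K) ∈ A ∧ res b ≠ 0 ∧ b * x = a

/-- The values at `ζ` of the elements of the subring `B`: a subring of the residue field. -/
def valueRing {K F : Type u} [Field K] [Field F] {R : Subring K} (res : R →+* F)
    (B : Subring K) : Subring F :=
  (B.comap R.subtype).map res

/-- The values at `ζ` of the elements of `W`. -/
def valuesAt {K F : Type u} [Field K] [Field F] {R : Subring K} (res : R →+* F)
    (W : Set K) : Set F :=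
  {z | ∃ x : R, (x : K) ∈ W ∧ res x = z}

/-- The elements of the local ring `R` of `ζ` whose value at `ζ` is contained in the valuation ring
`V` of the residue field; the centre of this local ring on a model of `X` is the specialization of
the point `(ζ, V)` of `X^ad`. -/
def adicRing {K F : Type u} [Field K] [Field F] {R : Subring K} (res : R →+* F)
    (V : ValuationSubring F) : Subring K :=
  (V.toSubring.comap res).map R.subtype

/-- On the part `h ≠ 0` of the generic fibre of `Spec A`, the closure of `ζ` is defined by the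
equations `f 0 = ... = f (c - 1) = 0`. -/
def IsCutOut {K F : Type u} [Field K] [Field F] (O A : Subring K) {R : Subring K}
    (res : R →+* F) {c : ℕ} (f : Fin c → R) (h : R) : Prop :=
  (∀ i, (f i : K) ∈ A ∧ res (f i) = 0) ∧ (h : K) ∈ A ∧ res h ≠ 0 ∧
    ∀ a : R, (a : K) ∈ A → res a = 0 → ∃ (n : ℕ) (d : R) (g : Fin c → R),
      (d : K) ∈ O ∧ d ≠ 0 ∧ (∀ i, (g i : K) ∈ A) ∧ d * h ^ n * a = ∑ i, g i * f i

/-- The elements of `F` which are separable algebraic over `k₁`, the constants, are regular
functions on the part `h ≠ 0` of the generic fibre of the closure of `ζ`. (This holds for all `h` if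
`k₁` is separably closed in `F`, that is, if the closure of `ζ` is geometrically irreducible; and it
holds if this part of the closure of `ζ` is normal.) -/
def ContainsConstants {K F : Type u} [Field K] [Field F] (O A : Subring K) {R : Subring K}
    (res : R →+* F) (k₁ : Subfield F) (h : R) : Prop :=
  ∀ y : F, IsSeparable k₁ y → ∃ (n : ℕ) (d a : R),
    (d : K) ∈ O ∧ d ≠ 0 ∧ (a : K) ∈ A ∧ res (d * h ^ n) * y = res a

/-- The point `x = (ζ, V)` of `X^ad` is uniformizable on the model `𝒳 = Proj O[W]` (`1 ∈ W`, the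
specialization of `x` lies in `Spec O[W]`, `R` is the local ring of `ζ` with the residue map `res`):
there are a blowing-up `𝒳₁` of `𝒳` in a closed subscheme of the fibre over `π = 0`, a finite
separable extension `l = k(ϖ)` such that the local ring of `O[ϖ]` at the centre is a discrete
valuation ring with the uniformizer `ϖ`, a point `x' = (ζ', V')` of `X_l^ad` over `x` (`R'` is the
local ring of `ζ'` with the residue map `res'` to the residue field `F' = F(ϖ)`), and a blowing-up
of `𝒳₁ ⊗ O[ϖ]` in a closed subscheme of the fibre over `ϖ = 0`, which is semistable at the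
specializations of `x'` and of all generizations `(ζ', V₁)` of `x'`, `V₁ ⊇ V'`, `|ϖ| < 1`. -/
def IsUniformizable {K F : Type u} [Field K] [Field F] (O : Subring K) (k : Subfield K)
    (W : Set K) {R : Subring K} (res : R →+* F) (k₁ : Subfield F) (V : ValuationSubring F)
    (π : K) : Prop :=
  ∃ Y₀ : Set K, IsVerticalCentre O π W Y₀ ∧
    ∃ (K' F' : Type u) (_ : Field K') (_ : Field F') (_ : Algebra K K') (_ : Algebra F F')
      (V' : ValuationSubring F') (R' : Subring K') (res' : R' →+* F') (ϖ : R'),
      IsSeparableLift V (valueRing res O) k₁ V' (res' ϖ) ∧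
      (∀ z : K', z ∈ Subfield.closure (Set.range (algebraMap K K') ∪ {(ϖ : K')})) ∧
      (∃ P : Polynomial k, P.Separable ∧
        P.eval₂ ((algebraMap K K').comp k.subtype) (ϖ : K') = 0) ∧
      IsLocalRingAt (chart (ramifiedRing (algebraMap K K') O (ϖ : K'))
        (algebraMap K K' '' W) 1) R' res' ∧
      (∀ y : R, ∃ z : R', (z : K') = algebraMap K K' y ∧
        res' z = algebraMap F F' (res y)) ∧
      ∃ Y : Set K', IsVerticalCentre (ramifiedRing (algebraMap K K') O (ϖ : K')) (ϖ : K')
          (algebraMap K K' '' blowUpCoordinates W Y₀) Y ∧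
        ∀ V₁ : ValuationSubring F', V' ≤ V₁ → V₁.valuation (res' ϖ) < 1 →
          IsSemistableAt (adicRing res' V₁) (ramifiedRing (algebraMap K K') O (ϖ : K'))
            (blowUpCoordinates (algebraMap K K' '' blowUpCoordinates W Y₀) Y) (ϖ : K')

/-- Let `O` be a Dedekind domain of characteristic zero or finite over its `p`-th powers, with the
field of fractions `k` (for example, `O = k°` for a discretely valued field `k`). Let `𝒳 = Proj O[W]`
be an integral projective `O`-scheme with the function field `K`, the homogeneous coordinates being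
normalized such that `1 ∈ W`, and let `A = O[W]` be the coordinate ring of the chart. Let `ζ` be a
point of the generic fibre of `Spec A`, with the local ring `R`, the residue field `F` and the
residue map `res : R → F`; let `Z` be its closure. Suppose that `dim R ≥ c` and that, on the part
`h ≠ 0` of the generic fibre of `Spec A`, `Z` is defined by the equations `f 0, ..., f (c - 1)` (so
`R` is regular, with the parameters `f i`; if the generic fibre `X` is regular at `ζ`, then there are
such `f i` and `h`), and that the constants of `F` are regular on this part of `Z`.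

Let `V` be a valuation ring of `F`, of any rank, which contains the image of `A`, and let `π ∈ O` be
a uniformizer at the centre of `V` on `O` which is topologically nilpotent in `V`: so `x = (ζ, V)` is
a point of `X^ad` whose support `ζ` is an arbitrary scheme point of `X` at which `X` is regular.

Let `k₁ ⊆ F` be the image of `k`, and let `x` be the generic point of an affine variety over `k₁`
with the function field `F`, of dimension `r` and degree at most `δ`, such that the closure of `ζ`
in `𝒳` and `h` are defined in degree `e ≥ 1`. Suppose that the primes `≤ (δ e ^ r) ^ 2 ^ r` are units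
of `V`. Then `(ζ, V)` is uniformizable on `𝒳`. -/
theorem result {K F : Type u} [Field K] [Field F]
    (O : Subring K) [IsDedekindDomain O] (hOb : IsBase O)
    (k : Subfield K) (hk : k = Subfield.closure (O : Set K))
    (W : Set K) (hW : W.Finite) (hW1 : (1 : K) ∈ W)
    (hK : ∀ z : K, ∃ a ∈ chart O W 1, ∃ b ∈ chart O W 1, b ≠ 0 ∧ z = a / b)
    (R : Subring K) (res : R →+* F) (hR : IsLocalRingAt (chart O W 1) R res)
    (hζ : ∀ a : R, (a : K) ∈ O → res a = 0 → a = 0)
    (k₁ : Subfield F) (hk₁ : k₁ = Subfield.closure (valueRing res O : Set F))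
    (c : ℕ) (hc : (c : WithBot ℕ∞) ≤ ringKrullDim R)
    (f : Fin c → R) (h : R) (hf : IsCutOut O (chart O W 1) res f h)
    (hcon : ContainsConstants O (chart O W 1) res k₁ h)
    (V : ValuationSubring F) (hV : ∀ a : R, (a : K) ∈ chart O W 1 → res a ∈ V)
    (π : R) (hπ : (π : K) ∈ O) (hπ0 : π ≠ 0) (hπ1 : V.valuation (res π) < 1)
    (hπV : ∀ z : F, z ≠ 0 → ∃ n : ℕ, V.valuation (res π) ^ n ≤ V.valuation z)
    (hπO : ∀ a : R, (a : K) ∈ O → V.valuation (res a) < 1 →
      ∃ b c : R, (b : K) ∈ O ∧ (c : K) ∈ O ∧ V.valuation (res c) = 1 ∧ c * a = π * b)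
    (N r δ e : ℕ) (he : 1 ≤ e) (x : Fin N → F) (hx : DegreeAtMost k₁ x r δ)
    (hp : ∀ p : ℕ, p.Prime → p ≤ (δ * e ^ r) ^ 2 ^ r → V.valuation (p : F) = 1)
    (hWx : IsDefinedInDegree (valueRing res O) k₁ x e (valuesAt res W) 1)
    (hh : IsProduct k₁ x e (res h)) :
    IsUniformizable O k W res k₁ V (π : K) := by
  classical
  obtain ⟨hAR, hs, hinv, hfrac⟩ := hR
  obtain ⟨hf1, hhA, hh0, hf2⟩ := hf
  have hRl : Rl res := hinv
  set A : Subring K := ch O W 1 with hA
  have hAR' : A ≤ R := hAR
  have hOA : O ≤ A := O_le_ch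
  have hOR : O ≤ R := hOA.trans hAR'
  have hWA : W ⊆ A := fun v hv => by
    have := div_mem_ch (O := O) (w := 1) hv
    rwa [div_one] at this
  have hWR : W ⊆ R := fun v hv => hAR' (hWA hv)
  have hAS : A ≤ sp res V := fun a ha => ⟨hAR' ha, by
    rw [ev_of res (hAR' ha)]; exact hV ⟨a, hAR' ha⟩ ha⟩
  have hhR : (h : K) ∈ R := h.2
  have hhe : ev res (h : K) ≠ 0 := by rw [ev_mk]; exact hh0
  have hhK : (h : K) ≠ 0 := ne_of_ev res hhe
  have hπK : (π : K) ≠ 0 := fun h0 => hπ0 (Subtype.ext h0)
  have hO0 : ∀ a ∈ O, a ≠ 0 → ev res a ≠ 0 := by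
    intro a ha ha0 h0
    rw [ev_of res (hOR ha)] at h0
    exact ha0 (congrArg Subtype.val (hζ ⟨a, hOR ha⟩ ha h0))
  have hfrA : ∀ y ∈ R, ∃ a ∈ A, ∃ b ∈ A, ev res b ≠ 0 ∧ y = a / b := by
    intro y hy
    obtain ⟨a, b, ha, hb, hb0, hab⟩ := hfrac ⟨y, hy⟩
    have hbe : ev res (b : K) ≠ 0 := by rw [ev_mk]; exact hb0
    refine ⟨a, ha, b, hb, hbe, ?_⟩
    rw [eq_div_iff (ne_of_ev res hbe), mul_comm]
    exact congrArg Subtype.val hab
  have hOk : O ≤ k.toSubring := by
    intro a ha
    rw [hk]
    exact Subfield.subset_closure ha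
  have hkO : ∀ y ∈ k, ∃ a ∈ O, ∃ b ∈ O, b ≠ 0 ∧ y = a / b := by
    intro y hy
    rw [hk, Subfield.mem_closure_iff] at hy
    obtain ⟨a, ha, b, hb, rfl⟩ := hy
    rw [Subring.closure_eq] at ha hb
    by_cases hb0 : b = 0
    · exact ⟨0, zero_mem _, 1, one_mem _, one_ne_zero, by rw [hb0, div_zero, zero_div]⟩
    · exact ⟨a, ha, b, hb, hb0, rfl⟩
  have hfi : ∀ i, ev res (f i : K) = 0 := fun i => by rw [ev_mk]; exact (hf1 i).2
  have hf3 : ∀ a ∈ A, ev res a = 0 → ∃ (n : ℕ) (d : K), d ∈ O ∧ d ≠ 0 ∧
      ∃ g : Fin c → K, (∀ j, g j ∈ A) ∧ d * (h : K) ^ n * a = ∑ j, g j * (f j : K) := by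
    intro a ha ha0
    rw [ev_of res (hAR' ha)] at ha0
    obtain ⟨n, d, g, hd, hd0, hg, hgs⟩ := hf2 ⟨a, hAR' ha⟩ ha ha0
    refine ⟨n, d, hd, fun h0 => hd0 (Subtype.ext h0), fun j => g j, hg, ?_⟩
    have h1 := congrArg Subtype.val hgs
    push_cast at h1
    exact h1
  have hval : valuesAt res W = ev res '' W := by
    ext z
    constructor
    · rintro ⟨y, hy, rfl⟩
      exact ⟨y, hy, ev_mk res y⟩
    · rintro ⟨y, hy, rfl⟩
      exact ⟨⟨y, hWR hy⟩, hy, (ev_of res (hWR hy)).symm⟩
  rw [hval] at hWx
  obtain ⟨hWp, hxA⟩ := hWx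
  -- the ground ring
  let e₀ : O ≃+* valueRing res O := by
    refine RingEquiv.ofBijective ((res.comp (Subring.inclusion hOR)).codRestrict
      (valueRing res O) fun a => ⟨⟨a, hOR a.2⟩, a.2, rfl⟩) ⟨?_, ?_⟩
    · rw [injective_iff_map_eq_zero]
      intro a ha
      have h1 : res ⟨a, hOR a.2⟩ = 0 := congrArg Subtype.val ha
      have h2 := hζ ⟨a, hOR a.2⟩ a.2 h1
      exact Subtype.ext (congrArg (fun r : R => (r : K)) h2)
    · rintro ⟨_, a, ha, rfl⟩
      exact ⟨⟨a, ha⟩, rfl⟩
  haveI hded : IsDedekindDomain (valueRing res O) := ded_equiv e₀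
  have hbase : IsBase (valueRing res O) := base_equiv e₀ hOb
  have hnoeth : IsNoetherianRing O := inferInstance
  have hmemO : ∀ z ∈ valueRing res O, ∃ a : R, (a : K) ∈ O ∧ res a = z := by
    rintro _ ⟨a, ha, rfl⟩
    exact ⟨a, ha, rfl⟩
  have hG : ∀ y : F, IsSeparable k₁ y → ∃ (n : ℕ) (d a : K), d ∈ O ∧ d ≠ 0 ∧ a ∈ ch O W 1 ∧
      ev res (d * (h : K) ^ n) * y = ev res a := by
    intro y hy
    obtain ⟨n, d, a, hd, hd0, ha, hda⟩ := hcon y hy
    refine ⟨n, d, a, hd, fun h0 => hd0 (Subtype.ext h0), ha, ?_⟩
    have e1 : (d : K) * (h : K) ^ n = ((d * h ^ n : R) : K) := by push_cast; rfl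
    rw [e1, ev_mk, ev_mk]
    exact hda
  have hU : ∀ N' e' : ℕ,
      (∀ v ∈ bu W ((fun m => (π : K) ^ N' * m) '' (W ^ e') ∪ {(h : K)}), v / h ∈ sp res V) →
      Unif V (im res O) k₁
        (ev res '' bu W ((fun m => (π : K) ^ N' * m) '' (W ^ e') ∪ {(h : K)})) := by
    intro N' e' hT
    set T := bu W ((fun m => (π : K) ^ N' * m) '' (W ^ e') ∪ {(h : K)}) with hTdef
    have hWe : W ^ e' ⊆ R := by
      intro m hm
      refine span_R hOR hWR e' m ?_
      rw [Submodule.span_pow]
      exact Submodule.subset_span hm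
    have hTR : T ⊆ R := by
      rintro _ ⟨y, hy, v, hv, rfl⟩
      refine mul_mem ?_ (hWR hv)
      rcases hy with ⟨m, hm, rfl⟩ | hy
      · exact mul_mem (pow_mem π.2 N') (hWe hm)
      · rw [Set.mem_singleton_iff.1 hy]; exact h.2
    have hTf : T.Finite := bu_finite hW
      (((pow_finite hW e').image _).union (Set.finite_singleton _))
    have hhT : (h : K) ∈ T := ⟨h, Or.inr rfl, 1, hW1, (mul_one _).symm⟩
    -- products
    have hPW : ∀ v ∈ W, IsProduct k₁ x e (ev res v) := fun v hv => hWp _ ⟨v, hv, rfl⟩
    have hPh : IsProduct k₁ x e (ev res (h : K)) := by rw [ev_mk]; exact hh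
    have hPπ : IsProduct k₁ x e (ev res (π : K)) := by
      have h1 : ev res (π : K) ∈ k₁ := by
        rw [hk₁]
        exact Subfield.subset_closure ⟨π, hπ, (ev_mk res π).symm⟩
      exact Pool.Agent.N98.SS.pprod_const (E := k₁) (K := F) (x := x) (e := e) ⟨_, h1⟩
    have hP1 : IsProduct k₁ x e (1 : F) := by
      have := Pool.Agent.N98.SS.pprod_const (E := k₁) (K := F) (x := x) (e := e) 1
      rwa [map_one] at this
    have hPmul : ∀ a b : F, IsProduct k₁ x e a → IsProduct k₁ x e b →
        IsProduct k₁ x e (a * b) := fun a b ha hb => Pool.Agent.N98.SS.pprod_mul ha hb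
    have hPWe : ∀ (i : ℕ), ∀ m ∈ W ^ i, m ∈ R ∧ IsProduct k₁ x e (ev res m) := by
      intro i
      induction i with
      | zero =>
        intro m hm
        rw [pow_zero, Set.mem_one] at hm
        rw [hm, ev_one]
        exact ⟨R.one_mem, hP1⟩
      | succ i ih =>
        intro m hm
        rw [pow_succ] at hm
        obtain ⟨a, ha, b, hb, rfl⟩ := hm
        obtain ⟨h1, h2⟩ := ih a ha
        simp only []
        refine ⟨mul_mem h1 (hWR hb), ?_⟩
        rw [ev_mul res h1 (hWR hb)]
        exact hPmul _ _ h2 (hPW b hb)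
    have hPπn : ∀ n : ℕ, IsProduct k₁ x e (ev res (π : K) ^ n) := by
      intro n
      induction n with
      | zero => rw [pow_zero]; exact hP1
      | succ n ih => rw [pow_succ]; exact hPmul _ _ ih hPπ
    have hdef : IsDefinedInDegree (valueRing res O) k₁ x e (ev res '' T) (ev res (h : K)) := by
      refine ⟨?_, ?_⟩
      · rintro _ ⟨_, ⟨y, hy, v, hv, rfl⟩, rfl⟩
        rcases hy with ⟨m, hm, rfl⟩ | hy
        · rw [ev_mul res (mul_mem (pow_mem π.2 N') (hWe hm)) (hWR hv),
            ev_mul res (pow_mem π.2 N') (hWe hm), ev_pow res π.2]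
          exact hPmul _ _ (hPmul _ _ (hPπn N') (hPWe e' m hm).2) (hPW v hv)
        · rw [Set.mem_singleton_iff.1 hy, ev_mul res h.2 (hWR hv)]
          exact hPmul _ _ hPh (hPW v hv)
      · intro j
        obtain ⟨b, hb, hb0, hbp, hbx⟩ := hxA j
        have hle : chart (valueRing res O) (ev res '' W) 1 ≤
            chart (valueRing res O) (ev res '' T) (ev res (h : K)) := by
          have h1 : chart (valueRing res O) (ev res '' W) 1 = im res (ch O W 1) := by
            rw [im_ch hRl hOR hWR (by rw [ev_one]; exact one_ne_zero), ev_one]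
            rfl
          have h2 : chart (valueRing res O) (ev res '' T) (ev res (h : K)) =
              im res (ch O T h) := (im_ch hRl hOR hTR hhe).symm
          rw [h1, h2]
          intro z hz
          obtain ⟨a, ha, rfl⟩ := (mem_im hAR').1 hz
          refine ev_mem_im (ch_R hRl hOR hTR hhe) ?_
          have h3 : ch O W 1 ≤ ch O T h := by
            conv_lhs => unfold ch
            rw [Subring.closure_le]
            rintro y (hy | ⟨v, hv, rfl⟩)
            · exact O_le_ch hy
            · have e1 : v / 1 = (h : K) * v / h := by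
                rw [div_one, mul_comm, mul_div_assoc, div_self hhK, mul_one]
              rw [e1]
              exact div_mem_ch ⟨h, Or.inr rfl, v, hv, rfl⟩
          exact h3 ha
        exact ⟨b, hle hb, hb0, hbp, hle hbx⟩
    obtain ⟨F', _, algF, V', t, hlift, Z, hZ, hss⟩ :=
      SeparableUniformization.result V (valueRing res O) hbase
        (fun a ha => by
          obtain ⟨b, hb, rfl⟩ := hmemO a ha
          exact hV b (hOA hb))
        (res π) ⟨π, hπ, rfl⟩ (fun h0 => hπ0 (hζ π hπ h0)) hπ1 hπV
        (fun a ha ha1 => by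
          obtain ⟨b, hb, rfl⟩ := hmemO a ha
          obtain ⟨b', c', hb', hc', hc1, hcb⟩ := hπO b hb ha1
          exact ⟨res b', ⟨b', hb', rfl⟩, res c', ⟨c', hc', rfl⟩, hc1, by
            rw [← map_mul, hcb, map_mul]⟩)
        k₁ hk₁ N r δ e he x hx hp (ev res '' T) (hTf.image _) (ev res (h : K))
        ⟨h, hhT, rfl⟩ hhe
        (by
          rintro _ ⟨v, hv, rfl⟩
          rw [← hRl.ev_div (hTR hv) hhe]
          exact (hT v hv).2) hdef
    exact ⟨F', inferInstance, algF, V', t, hlift, Z, hZ, hss⟩
  obtain ⟨Y₀, hY₀, K', F', _, _, algK, algF, V', R', res', ϖ, hϖ, hlift, hK', hsep,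
      ⟨hA', hs', hR', hfr'⟩, hc', Y, hY, hfin⟩ :=
    core2 hRl hs hnoeth hOk hkO hO0 hk₁ hW hW1 hAR' hfrA hK (fun i => (f i : K))
      (fun i => (hf1 i).1) hfi hc hhA hhe hf3 hG V hAS hπ hπK (by
        intro z hz
        rw [ev_mk]
        exact hπV z hz) hU
  have hevϖ : ev res' ϖ = res' ⟨ϖ, hϖ⟩ := ev_of res' hϖ
  rw [hevϖ] at hlift
  refine ⟨Y₀, hY₀, K', F', inferInstance, inferInstance, algK, algF, V', R', res', ⟨ϖ, hϖ⟩,
    hlift, hK', hsep, ⟨hA', hs', hR', ?_⟩, ?_, Y, hY, ?_⟩
  · rintro ⟨y, hy⟩
    obtain ⟨a, ha, b, hb, hb0, hab⟩ := hfr' y hy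
    refine ⟨⟨a, hA' ha⟩, ⟨b, hA' hb⟩, ha, hb, ?_, Subtype.ext ?_⟩
    · rw [← ev_of res' (hA' hb)]
      exact hb0
    · change b * y = a
      rw [hab]
      exact mul_div_cancel₀ _ (ne_of_ev res' hb0)
  · rintro ⟨y, hy⟩
    obtain ⟨h1, h2⟩ := hc' y hy
    refine ⟨⟨_, h1⟩, rfl, ?_⟩
    rw [← ev_of res' h1, h2, ev_of res hy]
  · intro V₁ hV₁ hV₁t
    have had : adicRing res' V₁ = sp res' V₁ := by
      ext z
      constructor
      · rintro ⟨y, hy, rfl⟩
        refine ⟨y.2, ?_⟩
        change ev res' (y : K') ∈ V₁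
        rw [ev_mk]
        exact hy
      · rintro ⟨hz, hzV⟩
        rw [ev_of res' hz] at hzV
        exact ⟨⟨z, hz⟩, hzV, rfl⟩
    rw [had]
    rw [← hevϖ] at hV₁t
    exact hfin V₁ hV₁ hV₁t

end Pool.Agent.Results.MP_1a953e_ag.ArbitrarySupports
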