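import Pool.Agent.Results.MP_1a953e_ag.ArbitrarySupports
import Pool.Agent.V5helper88.SP.Core3
import Pool.Agent.V5helper88.SP.Good
import Pool.Agent.V5helper88.SP.ImVert

/-!
MP_1a953e_ag: the uniformization of a point of `X^ad` follows from the uniformization of this point
on the closure of its support.

Let `k` be a discretely valued field with the ring of integers `O` (or, more generally, the field of
fractions of any noetherian domain `O`), and let `X` be an integral projective `k`-scheme with the
projective flat model `𝒳` over `O`. A point `x` of `X^ad` is a pair `(ζ, V)`: a scheme point `ζ` of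
`X`, its support, and a valuation ring `V`, of any rank, of the residue field `F = κ(ζ)` in which the
pseudo-uniformizer `π ∈ O` is topologically nilpotent. Let `Z` be the closure of `ζ` in `X`, and `𝒵`
its closure in `𝒳`. So `V` is also a point of `Z^ad`, over the generic point of `Z`.

Theorem. Suppose that `X` is regular at `ζ` (rig-smooth spaces are regular at all points), and that
`V`, as a point of `Z^ad`, is uniformizable: for every admissible blowing-up `𝒵₁` of `𝒵` there are a
finite separable extension `l = k(t)`, a preimage `V'` of `V` in `Z_l^ad` and an admissible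
blowing-up of `𝒵₁ ⊗ O[t]` which is semistable at the specializations of `V'` and of its
generizations. Then `(ζ, V)` is uniformizable on `𝒳`: there are an admissible blowing-up `𝒳₁` of `𝒳`,
a finite separable extension `l = k(ϖ)`, a preimage `x'` of `(ζ, V)` in `X_l^ad` and an admissible
blowing-up of `𝒳₁ ⊗ O[ϖ]` which is semistable at the specializations of `x'` and of its
generizations.

There are no other conditions: the dimensions, the degrees and the equations of `X` and `Z`, the
residue characteristic, the valuation ring `V` and the singularities of `Z` are arbitrary.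

Consequences.
1. The theorems of the starting files on points over the generic point of `X`, in which the model is
   arbitrary, are extended to points over arbitrary scheme points `ζ` at which `X` is regular: if `k`
   has characteristic zero, `V` has rank one, `|π|` is not a `p`-th power in its value group, and `V`
   is discrete, or divergent, or without defect over `k` (for example, an Abhyankar valuation in the
   sense of DefectlessPoints), or reached by a tower from such a valuation (TowersOverPoints), then
   `(ζ, V)` is uniformizable. The prime `p` is not large here, as it is in ArbitrarySupports.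
2. By the semistable reduction theorem for curves, all points of `X^ad` with supports of dimension at
   most one are uniformizable, for all `X` and all `p`, if the residue field of `k` is perfect (then
   the extension `l` in this theorem can be chosen totally ramified).
3. If `k` has characteristic zero, then a point `V` over the generic point of `Z` has the same
   neighbourhoods in `Z^ad` and in the adic space of a resolution of singularities of `Z`. So the
   question (for discretely valued `k` and projective `X`) is reduced to the points over the generic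
   points of smooth `X`.

The new steps, compared with ArbitrarySupports: equations of `Z` near `ζ` and the function `h` are
constructed from a regular system of parameters of the local ring of `ζ`, and the constants of `F`,
a finite extension of `k` because `F` is finitely generated, are made regular functions on the part
`h ≠ 0` of `Z`; and only admissible blowing-ups of `𝒵` are used.

helper88; built on the library of the starting files.
-/

set_option autoImplicit false

universe u

namespace Pool.Agent.Results.MP_1a953e_ag.SupportReduction

open Pool.Agent.Results.MP_1a953e_ag.SeparableUniformization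
open Pool.Agent.Results.MP_1a953e_ag.ArbitrarySupports (IsLocalRingAt valueRing valuesAt
  IsUniformizable adicRing)
open Pool.Agent.V5helper88.SP
open Pointwise

/-- The valuation ring `V` of `F`, as a point over the generic point of the projective scheme
`𝒵 = Proj O[T]` with the function field `F`, is uniformizable on `𝒵`: there are a finite separable
extension `l = k(t)` such that the local ring of `O[t]` at the centre is a discrete valuation ring
with the uniformizer `t`, a valuation ring `V'` of `F(t)` over `V`, and a blowing-up of `𝒵 ⊗ O[t]` in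
a closed subscheme of the fibre over `t = 0`, which is semistable at the centres of `V'` and of all
generizations `V₁ ⊇ V'`, `|t| < 1`. -/
def IsUniformizableOn {F : Type u} [Field F] (V : ValuationSubring F) (O : Subring F)
    (k : Subfield F) (T : Set F) : Prop :=
  ∃ (F' : Type u) (_ : Field F') (_ : Algebra F F') (V' : ValuationSubring F') (t : F'),
    IsSeparableLift V O k V' t ∧
    ∃ Z : Set F', IsVerticalCentre (ramifiedRing (algebraMap F F') O t) t
        (algebraMap F F' '' T) Z ∧
      ∀ V₁ : ValuationSubring F', V' ≤ V₁ → V₁.valuation t < 1 →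
        SeparableUniformization.IsSemistableAt V₁ (ramifiedRing (algebraMap F F') O t)
          (blowUpCoordinates (algebraMap F F' '' T) Z) t

/-- Let `O` be a noetherian domain with the field of fractions `k` (for example, `O = k°` for a
discretely valued field `k`). Let `𝒳 = Proj O[W]` be an integral projective `O`-scheme with the
function field `K`, the homogeneous coordinates being normalized such that `1 ∈ W`, and let
`A = O[W]` be the coordinate ring of the chart. Let `ζ` be a point of the generic fibre of `Spec A`,
with the local ring `R`, which is regular, the residue field `F` and the residue map `res : R → F`;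
let `𝒵` be its closure in `𝒳`.

Let `V` be a valuation ring of `F`, of any rank, which contains the image of `A`, and let
`0 ≠ π ∈ O` be topologically nilpotent in `V`: so `(ζ, V)` is a point of `X^ad`. Suppose that the
point `V` over the generic point of `𝒵` is uniformizable on every blowing-up of `𝒵` in a closed
subscheme of the fibre over `π = 0`. Then `(ζ, V)` is uniformizable on `𝒳`. -/
theorem result {K F : Type u} [Field K] [Field F]
    (O : Subring K) [IsNoetherianRing O]
    (k : Subfield K) (hk : k = Subfield.closure (O : Set K))
    (W : Set K) (hW : W.Finite) (hW1 : (1 : K) ∈ W)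
    (hK : ∀ z : K, ∃ a ∈ chart O W 1, ∃ b ∈ chart O W 1, b ≠ 0 ∧ z = a / b)
    (R : Subring K) [IsRegularLocalRing R]
    (res : R →+* F) (hR : IsLocalRingAt (chart O W 1) R res)
    (hζ : ∀ a : R, (a : K) ∈ O → res a = 0 → a = 0)
    (k₁ : Subfield F) (hk₁ : k₁ = Subfield.closure (valueRing res O : Set F))
    (V : ValuationSubring F) (hV : ∀ a : R, (a : K) ∈ chart O W 1 → res a ∈ V)
    (π : R) (hπ : (π : K) ∈ O) (hπ0 : π ≠ 0) (_hπ1 : V.valuation (res π) < 1)
    (hπV : ∀ z : F, z ≠ 0 → ∃ n : ℕ, V.valuation (res π) ^ n ≤ V.valuation z)
    (hU : ∀ Y : Set F, IsVerticalCentre (valueRing res O) (res π) (valuesAt res W) Y →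
      IsUniformizableOn V (valueRing res O) k₁ (blowUpCoordinates (valuesAt res W) Y)) :
    IsUniformizable O k W res k₁ V (π : K) := by
  classical
  obtain ⟨hAR, hs, hinv, hfrac⟩ := hR
  have hRl : Rl res := hinv
  set A : Subring K := ch O W 1 with hA
  have hAR' : A ≤ R := hAR
  have hOA : O ≤ A := O_le_ch
  have hOR : O ≤ R := hOA.trans hAR'
  have hWA : W ⊆ A := fun v hv => by
    have := div_mem_ch (O := O) (w := 1) hv
    rwa [div_one] at this
  have hWR : W ⊆ R := fun v hv => hAR' (hWA hv)
  have hAS : A ≤ sp res V := fun a ha => ⟨hAR' ha, by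
    rw [ev_of res (hAR' ha)]; exact hV ⟨a, hAR' ha⟩ ha⟩
  have hπK : (π : K) ≠ 0 := fun h0 => hπ0 (Subtype.ext h0)
  have hO0 : ∀ a ∈ O, a ≠ 0 → ev res a ≠ 0 := by
    intro a ha ha0 h0
    rw [ev_of res (hOR ha)] at h0
    exact ha0 (congrArg Subtype.val (hζ ⟨a, hOR ha⟩ ha h0))
  have hfrA : ∀ y ∈ R, ∃ a ∈ A, ∃ b ∈ A, ev res b ≠ 0 ∧ y = a / b := by
    intro y hy
    obtain ⟨a, b, ha, hb, hb0, hab⟩ := hfrac ⟨y, hy⟩
    have hbe : ev res (b : K) ≠ 0 := by rw [ev_mk]; exact hb0
    refine ⟨a, ha, b, hb, hbe, ?_⟩
    rw [eq_div_iff (ne_of_ev res hbe), mul_comm]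
    exact congrArg Subtype.val hab
  have hOk : O ≤ k.toSubring := by
    intro a ha
    rw [hk]
    exact Subfield.subset_closure ha
  have hkO : ∀ y ∈ k, ∃ a ∈ O, ∃ b ∈ O, b ≠ 0 ∧ y = a / b := by
    intro y hy
    rw [hk, Subfield.mem_closure_iff] at hy
    obtain ⟨a, ha, b, hb, rfl⟩ := hy
    rw [Subring.closure_eq] at ha hb
    by_cases hb0 : b = 0
    · exact ⟨0, zero_mem _, 1, one_mem _, one_ne_zero, by rw [hb0, div_zero, zero_div]⟩
    · exact ⟨a, ha, b, hb, hb0, rfl⟩
  have hval : valuesAt res W = ev res '' W := by
    ext z
    constructor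
    · rintro ⟨y, hy, rfl⟩
      exact ⟨y, hy, ev_mk res y⟩
    · rintro ⟨y, hy, rfl⟩
      exact ⟨⟨y, hWR hy⟩, hy, (ev_of res (hWR hy)).symm⟩
  have hOn : IsNoetherianRing O := inferInstance
  obtain ⟨c, f, h, hfA, hf0, hdim, hhA, hh0, hf, hG⟩ :=
    exists_good (O := O) (W := W) hRl hs hOn hO0 hk₁ hW hAR' hfrA
  have hU' : ∀ Y : Set K, Vert O π W Y → (∀ y ∈ Y, y ∈ R) →
      Unif V (im res O) k₁ (ev res '' bu W Y) := by
    intro Y hY hYR
    have h1 := im_vert (res := res) hOR hWR hπ hY hYR
    rw [ev_mk] at h1
    rw [hval] at hU
    obtain ⟨F', _, algF, V', t, hlift, Z, hZ, hss⟩ := hU (ev res '' Y) h1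
    rw [im_bu hWR hYR]
    exact ⟨F', inferInstance, algF, V', t, hlift, Z, hZ, hss⟩
  obtain ⟨Y₀, hY₀, K', F', _, _, algK, algF, V', R', res', ϖ, hϖ, hlift, hK', hsep,
      ⟨hA', hs', hR', hfr'⟩, hc', Y, hY, hfin⟩ :=
    core3 hRl hs hOn hOk hkO hO0 hk₁ hW hW1 hAR' hfrA hK f hfA hf0 hdim hhA hh0 hf hG V hAS hπ
      hπK (by
        intro z hz
        rw [ev_mk]
        exact hπV z hz) hU'
  have hevϖ : ev res' ϖ = res' ⟨ϖ, hϖ⟩ := ev_of res' hϖ
  rw [hevϖ] at hlift
  refine ⟨Y₀, hY₀, K', F', inferInstance, inferInstance, algK, algF, V', R', res', ⟨ϖ, hϖ⟩,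
    hlift, hK', hsep, ⟨hA', hs', hR', ?_⟩, ?_, Y, hY, ?_⟩
  · rintro ⟨y, hy⟩
    obtain ⟨a, ha, b, hb, hb0, hab⟩ := hfr' y hy
    refine ⟨⟨a, hA' ha⟩, ⟨b, hA' hb⟩, ha, hb, ?_, Subtype.ext ?_⟩
    · rw [← ev_of res' (hA' hb)]
      exact hb0
    · change b * y = a
      rw [hab]
      exact mul_div_cancel₀ _ (ne_of_ev res' hb0)
  · rintro ⟨y, hy⟩
    obtain ⟨h1, h2⟩ := hc' y hy
    refine ⟨⟨_, h1⟩, rfl, ?_⟩
    rw [← ev_of res' h1, h2, ev_of res hy]
  · intro V₁ hV₁ hV₁t
    have had : adicRing res' V₁ = sp res' V₁ := by
      ext z
      constructor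
      · rintro ⟨y, hy, rfl⟩
        refine ⟨y.2, ?_⟩
        change ev res' (y : K') ∈ V₁
        rw [ev_mk]
        exact hy
      · rintro ⟨hz, hzV⟩
        rw [ev_of res' hz] at hzV
        exact ⟨⟨z, hz⟩, hzV, rfl⟩
    rw [had]
    rw [← hevϖ] at hV₁t
    exact hfin V₁ hV₁ hV₁t

end Pool.Agent.Results.MP_1a953e_ag.SupportReduction
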