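import Pool.Agent.V5helper93.TS.Fin

/-!
MP_1a953e_ag: uniformization of the points of `X^ad`, of any rank and over arbitrary scheme points of
`X`, which are reached without defect.

Let `k` be a discretely valued field with the ring of integers `O`; if `k` has positive
characteristic, suppose that the residue field is finite over its `p`-th powers. Let `X` be an
integral projective `k`-scheme with the projective flat model `𝒳` over `O`. A point of `X^ad` is a
pair `(ζ, V)`: a scheme point `ζ` of `X`, its support, and a valuation ring `V`, of any rank, of the
residue field `F = κ(ζ)`, in which the elements `π` of the maximal ideal of `O` are topologically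
nilpotent. Suppose that `X` is regular at `ζ` (rig-smooth spaces are regular at all points). There are
no conditions on the dimensions, the degrees, the equations of `X` and of the closure `Z` of `ζ`, the
singularities of `Z`, and the residue characteristic.

Theorem. Suppose that for some finite separable totally ramified extension `k(ρ)` with the uniformizer
`ρ` (for example for `k`), the field `F₂ = F(ρ)` and some valuation ring `V₂` of `F₂` over `V`

* `V₂` is reached without defect: it is contained in the smallest class of valuation rings of fields
  over `O` which contains the trivial, the discrete and the log uniformizable valuation rings and those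
  with divergent sequences of quadratic transforms, and which is stable under composition and under
  towers (over finitely generated subfields) of transcendental steps without limit key polynomials and
  of finite extensions without defect;
* `|ρ|` is not a `p`-th power, `p` the residue characteristic, in the value group of the coarsening of
  rank one of `V₂` (that is, up to infinitely small values).

Then `(ζ, V)` is uniformizable on `𝒳`: there are an admissible blowing-up `𝒳₁` of `𝒳`, a finite
separable extension `l = k(ϖ)`, a preimage `x'` of `(ζ, V)` in `X_l^ad` and an admissible blowing-up
of `𝒳₁ ⊗ O[ϖ]` which is semistable at the specializations of `x'` and of its generizations.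

In particular the two conditions are satisfied in the following cases, if `k` is complete of
characteristic zero with perfect residue field; here `F` is the function field of an arbitrary closed
subvariety `Z` which is not contained in the singular locus of `X`.
1. `V` is an Abhyankar valuation ring of `F`, of any rank: a tower over `k`. (By the generalized
   stability theorem the finite extensions have no defect, and for a sufficiently large totally
   ramified extension `k(ρ)` the value group of `k(ρ)` is a direct summand of the value group.)
2. `V` is a discrete valuation ring of `F` such that all perfect subfields of its residue field are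
   algebraic over the residue field of `k`. (By Epp's theorem, there is a totally ramified extension
   `k(ρ)` such that `ρ` generates the maximal ideal of `V₂`.)
3. `V` is the composite of a valuation ring as in 1 or 2 and of any valuation ring of its residue
   field which is reached without defect, for example a discrete one or an Abhyankar one.
So for every such `Z` the uniformizable points are dense in the set of the points of `X^ad` with the
support `Z`. The point `ζ` can also be the generic point of `X`; then the theorem extends the starting
results from rank one to all ranks.

New steps. (1) The starting files treat towers for valuations of rank one over the generic point of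
`X` and `l = k(π^(1/N))`; here the rank of `V` is arbitrary, composites are allowed (the tools of
SeparableUniformization are combined with the log uniformization of towers and composites), and the
extension `k(ρ)` is arbitrary. (2) By the theorem SupportReduction, the support is an arbitrary point
`ζ` at which `X` is regular.

helper93, with helper88's SupportReduction; built on the library of the starting files.
-/

set_option autoImplicit false

universe u

namespace Pool.Agent.Results.MP_1a953e_ag.TowerSupports

open Pool.Agent.Results.MP_1a953e_ag.SeparableUniformization
open Pool.Agent.Results.MP_1a953e_ag.ArbitrarySupports (IsLocalRingAt valueRing valuesAt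
  IsUniformizable)
open Pool.Agent.V5helper93.TS (Reached)

/-- If `p` is the residue characteristic of `V`, then the value of `ρ` is not a `p`-th power up to
infinitely small values: for every `z` the value of some (positive or negative) power of `ρ / z ^ p` is
at most the value of `ρ`. (If `ρ` is topologically nilpotent, then this means that `|ρ|` is not a `p`-th
power in the value group of the coarsening of `V` of rank one.) -/
def IsNoPower {L : Type u} [Field L] (V : ValuationSubring L) (ρ : L) : Prop :=
  ∀ p : ℕ, p.Prime → V.valuation (p : L) < 1 → ∀ z : L, ∃ n : ℤ,
    V.valuation (ρ / z ^ p) ^ n ≤ V.valuation ρ

/-- Let `O` be a Dedekind domain of characteristic zero or finite over its `p`-th powers, with the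
field of fractions `k` (for example, `O = k°` for a discretely valued field `k`). Let `𝒳 = Proj O[W]`
be an integral projective `O`-scheme with the function field `K`, the homogeneous coordinates being
normalized such that `1 ∈ W`, and let `A = O[W]` be the coordinate ring of the chart. Let `ζ` be a
point of the generic fibre of `Spec A`, with the local ring `R`, which is regular, the residue field
`F` and the residue map `res : R → F`.

Let `V` be a valuation ring of `F`, of any rank, which contains the image of `A`, and let
`0 ≠ π ∈ O` be topologically nilpotent in `V`: so `(ζ, V)` is a point of `X^ad`. Let `F₂ = F(ρ)`, `ρ`
separable over `k`, and let `V₂` be a valuation ring of `F₂` over `V` such that the local ring of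
`O[ρ]` at the centre is a discrete valuation ring with the uniformizer `ρ` (for example `F₂ = F` and
`ρ = π`, if `π` is a uniformizer of `O` at the centre). Suppose that `V₂` is reached without defect, and
that `|ρ|` is not a `p`-th power. Then `(ζ, V)` is uniformizable on `𝒳`. -/
theorem result {K F : Type u} [Field K] [Field F]
    (O : Subring K) [IsDedekindDomain O] (hOb : IsBase O)
    (k : Subfield K) (hk : k = Subfield.closure (O : Set K))
    (W : Set K) (hW : W.Finite) (hW1 : (1 : K) ∈ W)
    (hK : ∀ z : K, ∃ a ∈ chart O W 1, ∃ b ∈ chart O W 1, b ≠ 0 ∧ z = a / b)
    (R : Subring K) [IsRegularLocalRing R]
    (res : R →+* F) (hR : IsLocalRingAt (chart O W 1) R res)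
    (hζ : ∀ a : R, (a : K) ∈ O → res a = 0 → a = 0)
    (k₁ : Subfield F) (hk₁ : k₁ = Subfield.closure (valueRing res O : Set F))
    (V : ValuationSubring F) (hV : ∀ a : R, (a : K) ∈ chart O W 1 → res a ∈ V)
    (π : R) (hπ : (π : K) ∈ O) (hπ0 : π ≠ 0) (hπ1 : V.valuation (res π) < 1)
    (hπV : ∀ z : F, z ≠ 0 → ∃ n : ℕ, V.valuation (res π) ^ n ≤ V.valuation z)
    {F₂ : Type u} [Field F₂] [Algebra F F₂] (V₂ : ValuationSubring F₂) (ρ : F₂)
    (hρ : IsSeparableLift V (valueRing res O) k₁ V₂ ρ) (hρp : IsNoPower V₂ ρ)
    (hV₂ : Reached (valueRing res O) ((algebraMap F F₂).comp (valueRing res O).subtype) V₂) :
    IsUniformizable O k W res k₁ V (π : K) :=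
  Pool.Agent.V5helper93.TS.main O hOb k hk W hW hW1 hK R res hR hζ k₁ hk₁ V hV π hπ hπ0 hπ1
    hπV V₂ ρ hρ hρp hV₂

end Pool.Agent.Results.MP_1a953e_ag.TowerSupports
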